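import Pool.Agent.Lib.MP_85963d_gt.Interfaces

/-!
# ANAL: bounded sequences of holomorphic functions
-/

set_option autoImplicit false

open Filter Topology Set Metric

namespace Pool.Agent.MP85963d.H51

private theorem anal_aux (D : Set ℂ) (d : ℕ → ℂ → ℂ) (C c : ℝ) (z₀ : ℂ) (K : Set ℂ) (hD : IsOpen D)
    (hDp : IsPreconnected D)
    (hd : ∀ n, DifferentiableOn ℂ (d n) D) (hC : ∀ n, ∀ z ∈ D, ‖d n z‖ ≤ C) (hz₀ : z₀ ∈ D)
    (hc : 0 < c) (hcd : ∀ n, c ≤ ‖d n z₀‖) (hK : IsCompact K) (hKD : K ⊆ D) :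
    {z ∈ K | Tendsto (fun n => d n z) atTop (𝓝 0)}.Finite := by
  by_contra hinf
  have hinf : {z ∈ K | Tendsto (fun n => d n z) atTop (𝓝 0)}.Infinite := hinf
  obtain ⟨x, hxK, hx⟩ := hinf.exists_accPt_of_subset_isCompact hK (fun z hz => hz.1)
  let U : Ultrafilter ℕ := hyperfilter ℕ
  have hU : (U : Filter ℕ) ≤ atTop := Nat.hyperfilter_le_atTop
  have hC0 : 0 ≤ C := (norm_nonneg _).trans (hC 0 z₀ hz₀)
  have hlim : ∀ z : ℂ, ∃ y : ℂ, z ∈ D → Tendsto (fun n => d n z) U (𝓝 y) := by
    intro z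
    by_cases hz : z ∈ D
    · obtain ⟨y, -, hy⟩ := (isCompact_closedBall (0 : ℂ) C).ultrafilter_le_nhds
        (U.map fun n => d n z) (by
          rw [le_principal_iff]
          have h1 : ∀ᶠ n in (U : Filter ℕ), d n z ∈ closedBall (0 : ℂ) C :=
            Eventually.of_forall fun n => by simpa using hC n z hz
          exact h1)
      exact ⟨y, fun _ => hy⟩
    · exact ⟨0, fun h => absurd h hz⟩
  choose g hg using hlim
  have hlip : ∀ z ∈ D, ∃ r : ℝ, 0 < r ∧ ball z r ⊆ D ∧ ∀ n, ∀ a ∈ ball z r, ∀ b ∈ ball z r,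
      ‖d n b - d n a‖ ≤ C / r * ‖b - a‖ := by
    intro z hz
    obtain ⟨R, hR, hRD⟩ := Metric.isOpen_iff.1 hD z hz
    have hsub : ∀ a ∈ ball z (R / 2), closedBall a (R / 3) ⊆ D := by
      intro a ha w hw
      apply hRD
      rw [mem_ball] at ha ⊢
      rw [mem_closedBall] at hw
      have := dist_triangle w a z
      linarith
    refine ⟨R / 3, by positivity, (ball_subset_ball (by linarith)).trans hRD,
      fun n a ha b hb => ?_⟩
    have ha' : a ∈ ball z (R / 2) := ball_subset_ball (by linarith) ha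
    have hb' : b ∈ ball z (R / 2) := ball_subset_ball (by linarith) hb
    refine Convex.norm_image_sub_le_of_norm_deriv_le (𝕜 := ℂ) (s := ball z (R / 2))
      (fun w hw => ?_) (fun w hw => ?_) (convex_ball _ _) ha' hb'
    · have : D ∈ 𝓝 w := hD.mem_nhds (hsub w hw (mem_closedBall_self (by positivity)))
      exact (hd n).differentiableAt this
    · refine Complex.norm_deriv_le_of_forall_mem_sphere_norm_le (by positivity) ?_ ?_
      · refine DifferentiableOn.diffContOnCl ((hd n).mono ?_)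
        rw [closure_ball _ (by positivity)]
        exact hsub w hw
      · intro v hv
        exact hC n v (hsub w hw (sphere_subset_closedBall hv))
  have hunif : TendstoLocallyUniformlyOn d g U D := by
    rw [Metric.tendstoLocallyUniformlyOn_iff]
    intro ε hε z hz
    obtain ⟨r, hr, hrD, hL⟩ := hlip z hz
    have hpos : 0 < C / r + 1 := by positivity
    refine ⟨ball z (min r (ε / (4 * (C / r + 1)))),
      mem_nhdsWithin_of_mem_nhds (ball_mem_nhds _ (by positivity)), ?_⟩
    have h1 : ∀ᶠ n in (U : Filter ℕ), dist (d n z) (g z) < ε / 4 :=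
      (Metric.tendsto_nhds.1 (hg z hz)) (ε / 4) (by positivity)
    filter_upwards [h1] with n hn y hy
    have hyr : y ∈ ball z r := ball_subset_ball (min_le_left _ _) hy
    have hy2 : ‖y - z‖ < ε / (4 * (C / r + 1)) := by
      rw [← dist_eq_norm]
      exact lt_of_lt_of_le (mem_ball.1 hy) (min_le_right _ _)
    have h2 : ∀ m, ‖d m y - d m z‖ ≤ ε / 4 := by
      intro m
      have h3 := hL m z (mem_ball_self hr) y hyr
      have h4 : C / r * ‖y - z‖ ≤ (C / r + 1) * (ε / (4 * (C / r + 1))) := by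
        apply mul_le_mul (by linarith) hy2.le (norm_nonneg _) hpos.le
      have h5 : (C / r + 1) * (ε / (4 * (C / r + 1))) = ε / 4 := by
        field_simp
      linarith
    have h6 : ‖g y - g z‖ ≤ ε / 4 := by
      have h7 : Tendsto (fun m => ‖d m y - d m z‖) U (𝓝 ‖g y - g z‖) :=
        ((hg y (hrD hyr)).sub (hg z hz)).norm
      exact le_of_tendsto h7 (Eventually.of_forall h2)
    have h8 : dist (g y) (d n y) ≤ dist (g y) (g z) + dist (g z) (d n z) + dist (d n z) (d n y) :=
      dist_triangle4 _ _ _ _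
    have h9 := h2 n
    rw [← dist_eq_norm] at h6 h9
    rw [dist_comm] at hn h9
    linarith
  have hgd : DifferentiableOn ℂ g D :=
    hunif.differentiableOn (Eventually.of_forall hd) hD
  have hga : AnalyticOnNhd ℂ g D := hgd.analyticOnNhd hD
  have hfr : ∃ᶠ z in 𝓝[≠] x, g z = 0 := by
    have h1 : ∃ᶠ z in 𝓝[≠] x, z ∈ {z ∈ K | Tendsto (fun n => d n z) atTop (𝓝 0)} :=
      accPt_iff_frequently_nhdsNE.1 hx
    refine h1.mono fun z hz => ?_
    exact tendsto_nhds_unique (hg z (hKD hz.1)) (hz.2.mono_left hU)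
  have h0 := hga.eqOn_zero_of_preconnected_of_frequently_eq_zero hDp (hKD hxK) hfr hz₀
  have h1 : c ≤ ‖g z₀‖ :=
    ge_of_tendsto (hg z₀ hz₀).norm (Eventually.of_forall hcd)
  rw [h0] at h1
  simp at h1
  linarith

/-- ANAL -/
theorem anal_holds : AnalStatement :=
  fun D d C c z₀ K hD hDp hd hC hz₀ hc hcd hK hKD =>
    anal_aux D d C c z₀ K hD hDp hd hC hz₀ hc hcd hK hKD

end Pool.Agent.MP85963d.H51
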