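import Pool.Agent.Lib.MP_85963d_gt.Interfaces

/-!
# COMP: compactness (2.8)
-/

set_option autoImplicit false

open MeasureTheory Filter Topology Set Metric Quaternion
open scoped Real ContDiff

namespace Pool.Agent.MP85963d.H51

open SF

/-! ### norms -/

theorem nrm_add_le (F G : SF) : nrm (F + G : SF) ≤ nrm F + nrm G := by
  have h1 : nrm (F + G : SF) ^ 2 = nrm F ^ 2 + 2 * ip F G + nrm G ^ 2 := by
    rw [nrm_sq', nrm_sq', nrm_sq', ip_add_left, ip_add_right, ip_add_right, ip_comm G F]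
    ring
  have h2 : ip F G ≤ nrm F * nrm G :=
    (le_abs_self _).trans (abs_ip_le F.continuousOn G.continuousOn)
  have h3 : nrm (F + G : SF) ^ 2 ≤ (nrm F + nrm G) ^ 2 := by
    rw [h1]
    nlinarith
  exact le_of_sq_le_sq h3 (add_nonneg (nrm_nonneg _) (nrm_nonneg _))

/-- the left letters -/
def lz : Fin 3 → Fin 6 := ![3, 4, 5]

theorem Dlet_lz (a : Fin 3) : Dlet (lz a) = DZ a := by
  fin_cases a <;> rfl

theorem wordZ_eq (l : List (Fin 3)) (F : SF) : wordZ l F = word (l.map lz) F := by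
  induction l with
  | nil => rfl
  | cons a l ih =>
    show DZ a (wordZ l F) = Dlet (lz a) (word (l.map lz) F)
    rw [ih, Dlet_lz]

theorem word_nrm_le (hN : NormFacts) : ∃ K : ℝ, 0 ≤ K ∧ ∀ (F : SF) (l : List (Fin 6)),
    l.length ≤ 4 → nrm (word l F) ≤ K * ener F := by
  obtain ⟨C, hC⟩ := hN.interp 1 one_pos
  refine ⟨max 1 C, le_trans zero_le_one (le_max_left _ _), fun F l hl => ?_⟩
  have h1 := nrm_nonneg (Lap (Lap F))
  have h2 := nrm_nonneg F
  have h3 : (1 : ℝ) ≤ max 1 C := le_max_left _ _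
  have h4 : C ≤ max 1 C := le_max_right _ _
  have h5 : nrm (Lap (Lap F)) ≤ max 1 C * nrm (Lap (Lap F)) := le_mul_of_one_le_left h1 h3
  have h6 : C * nrm F ≤ max 1 C * nrm F := mul_le_mul_of_nonneg_right h4 h2
  have h7 : 0 ≤ max 1 C * nrm F := mul_nonneg (by linarith) h2
  rw [ener, mul_add]
  rcases Nat.lt_or_ge l.length 4 with hl' | hl'
  · have := hC F l (by omega)
    linarith
  · have := hN.four F l (by omega)
    linarith

/-! ### symmetries of left derivatives -/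

theorem Z_comp_right (a ρ : ℍ) (hρ : ρ ≠ 0) (F : SF) (h : ∀ x : ℍ, F (x * ρ) = F x) (x : ℍ) :
    (Z a F) (x * ρ) = (Z a F) x := by
  by_cases hx : x = 0
  · subst hx; rw [zero_mul]
  have h1 : HasFDerivAt F (fderiv ℝ F (x * ρ)) (rm ρ x) := F.hasFDerivAt (mul_ne_zero hx hρ)
  have h2 := h1.comp x (rm ρ).hasFDerivAt
  have e : (F : ℍ → ℝ) ∘ (rm ρ) = F := funext h
  rw [e] at h2
  rw [Z_apply, Z_apply, h2.fderiv, ← mul_assoc]
  rfl

theorem IsU_DZ {y : SF} (h : IsU y) (a : Fin 3) : IsU (DZ a y) :=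
  ⟨fun x t => Z_comp_right _ _ (rot_ne_zero isImUnit_I t) y (fun x => h.rotI x t) x,
    fun x => Z_comp_right _ _ (by
      intro h0
      have := isImUnit_K.norm_eq
      rw [h0, norm_zero] at this
      exact zero_ne_one this) y h.mulK x⟩

theorem IsU_wordZ {y : SF} (h : IsU y) (l : List (Fin 3)) : IsU (wordZ l y) := by
  induction l with
  | nil => exact h
  | cons a l ih => exact IsU_DZ ih a

theorem sup_wordZ_le (hS : SobStatement) (hN : NormFacts) : ∃ K : ℝ, 0 ≤ K ∧ ∀ y : SF, IsU y →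
    ∀ l : List (Fin 3), l.length ≤ 2 → ∀ x : ℍ, |(wordZ l y) x| ≤ K * ener y := by
  obtain ⟨C, hC⟩ := hS
  obtain ⟨K, hK0, hK⟩ := word_nrm_le hN
  refine ⟨|C| * (4 * K), by positivity, fun y hy l hl x => ?_⟩
  have he : 0 ≤ ener y := add_nonneg (nrm_nonneg _) (nrm_nonneg _)
  have h1 := hC (wordZ l y) (IsU_wordZ hy l) x
  have h2 : nrm (wordZ l y) ≤ K * ener y := by
    rw [wordZ_eq]
    exact hK _ _ (by rw [List.length_map]; omega)
  have h3 : ∀ a : Fin 3, nrm (DZ a (DZ a (wordZ l y))) ≤ K * ener y := by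
    intro a
    have : DZ a (DZ a (wordZ l y)) = wordZ (a :: a :: l) y := rfl
    rw [this, wordZ_eq]
    exact hK _ _ (by rw [List.length_map]; simp; omega)
  have h4 : nrm (Lap (wordZ l y)) ≤ 3 * (K * ener y) := by
    rw [Lap_eq]
    have e1 := nrm_add_le (DZ 0 (DZ 0 (wordZ l y)) + DZ 1 (DZ 1 (wordZ l y)))
      (DZ 2 (DZ 2 (wordZ l y)))
    have e2 := nrm_add_le (DZ 0 (DZ 0 (wordZ l y))) (DZ 1 (DZ 1 (wordZ l y)))
    have := h3 0
    have := h3 1
    have := h3 2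
    linarith
  have h5 : 0 ≤ nrm (wordZ l y) + nrm (Lap (wordZ l y)) :=
    add_nonneg (nrm_nonneg _) (nrm_nonneg _)
  calc |(wordZ l y) x| ≤ C * (nrm (wordZ l y) + nrm (Lap (wordZ l y))) := h1
    _ ≤ |C| * (nrm (wordZ l y) + nrm (Lap (wordZ l y))) :=
        mul_le_mul_of_nonneg_right (le_abs_self C) h5
    _ ≤ |C| * (4 * (K * ener y)) := by
        apply mul_le_mul_of_nonneg_left _ (abs_nonneg C)
        linarith
    _ = |C| * (4 * K) * ener y := by ring

/-- elements of `SF` are bounded -/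
theorem exists_bound (F : SF) : ∃ B : ℝ, 0 ≤ B ∧ ∀ x : ℍ, |F x| ≤ B := by
  obtain ⟨B, hB⟩ := (isCompact_sphere (0 : ℍ) 1).exists_bound_of_continuousOn
    (F.continuousOn.mono (fun x hx => by
      intro h
      have h' : x = 0 := h
      rw [mem_sphere_zero_iff_norm, h', norm_zero] at hx
      exact zero_ne_one hx))
  refine ⟨|B|, abs_nonneg _, fun x => ?_⟩
  by_cases hx : x = 0
  · subst hx; rw [map_zero', abs_zero]; exact abs_nonneg _
  · have hn : ‖x‖ ≠ 0 := norm_ne_zero_iff.2 hx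
    have h1 := hB (‖x‖⁻¹ • x) (by
      rw [mem_sphere_zero_iff_norm, norm_smul, norm_inv, norm_norm, inv_mul_cancel₀ hn])
    rw [F.hom (inv_ne_zero hn), Real.norm_eq_abs] at h1
    exact h1.trans (le_abs_self B)

/-! ### Arzela-Ascoli -/

theorem norm_fderiv_le (F : SF) (B : ℝ) (h1 : ∀ (a : Fin 3) (x : ℍ), |(DZ a F) x| ≤ B) {x : ℍ}
    (hx : x ≠ 0) : ‖fderiv ℝ F x‖ ≤ 6 * B / ‖x‖ := by
  have hn : 0 < ‖x‖ := norm_pos_iff.2 hx
  have hB : 0 ≤ B := (abs_nonneg _).trans (h1 0 x)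
  refine ContinuousLinearMap.opNorm_le_bound _ (by positivity) fun v => ?_
  set q : ℍ := v * x⁻¹ with hq
  have hv : v = q * x := by rw [hq, mul_assoc, inv_mul_cancel₀ hx, mul_one]
  have hqn : ‖q‖ = ‖v‖ / ‖x‖ := by rw [hq, norm_mul, norm_inv, div_eq_mul_inv]
  have hdec : q = q.re • (1 : ℍ) + q.imI • qI + q.imJ • qJ + q.imK • qK := by
    ext <;> simp [qI, qJ, qK]
  have hD : ∀ (a : Fin 3), fderiv ℝ F x (qU a * x) = 2 * (DZ a F) x := by
    intro a
    rw [DZ, Z_apply, smul_mul_assoc, map_smul, smul_eq_mul]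
    ring
  have hz : fderiv ℝ F x v = 2 * q.imI * (DZ 0 F) x + 2 * q.imJ * (DZ 1 F) x
      + 2 * q.imK * (DZ 2 F) x := by
    have e0 := hD 0
    have e1 := hD 1
    have e2 := hD 2
    simp only [qU, Matrix.cons_val_zero, Matrix.cons_val_one, Matrix.cons_val_two,
      Matrix.tail_cons, Matrix.head_cons] at e0 e1 e2
    rw [hv]
    conv_lhs => rw [hdec]
    rw [add_mul, add_mul, add_mul, smul_mul_assoc, smul_mul_assoc, smul_mul_assoc, smul_mul_assoc,
      one_mul, map_add, map_add, map_add, map_smul, map_smul, map_smul, map_smul, e0, e1, e2,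
      F.fderiv_self hx]
    simp only [smul_eq_mul]
    ring
  have hc : ∀ c : ℝ, |c| ≤ ‖q‖ → ∀ a : Fin 3, |2 * c * (DZ a F) x| ≤ 2 * ‖q‖ * B := by
    intro c hc a
    rw [abs_mul, abs_mul, abs_two]
    have := h1 a x
    gcongr
  have hI : |q.imI| ≤ ‖q‖ := by
    apply abs_le_of_sq_le_sq _ (norm_nonneg _)
    rw [sq ‖q‖, ← Quaternion.normSq_eq_norm_mul_self, Quaternion.normSq_def']
    nlinarith [sq_nonneg q.re, sq_nonneg q.imJ, sq_nonneg q.imK]
  have hJ : |q.imJ| ≤ ‖q‖ := by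
    apply abs_le_of_sq_le_sq _ (norm_nonneg _)
    rw [sq ‖q‖, ← Quaternion.normSq_eq_norm_mul_self, Quaternion.normSq_def']
    nlinarith [sq_nonneg q.re, sq_nonneg q.imI, sq_nonneg q.imK]
  have hK : |q.imK| ≤ ‖q‖ := by
    apply abs_le_of_sq_le_sq _ (norm_nonneg _)
    rw [sq ‖q‖, ← Quaternion.normSq_eq_norm_mul_self, Quaternion.normSq_def']
    nlinarith [sq_nonneg q.re, sq_nonneg q.imI, sq_nonneg q.imJ]
  rw [Real.norm_eq_abs, hz]
  calc |2 * q.imI * (DZ 0 F) x + 2 * q.imJ * (DZ 1 F) x + 2 * q.imK * (DZ 2 F) x|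
      ≤ |2 * q.imI * (DZ 0 F) x| + |2 * q.imJ * (DZ 1 F) x| + |2 * q.imK * (DZ 2 F) x| :=
        abs_add_three _ _ _
    _ ≤ 2 * ‖q‖ * B + 2 * ‖q‖ * B + 2 * ‖q‖ * B := by
        have := hc _ hI 0
        have := hc _ hJ 1
        have := hc _ hK 2
        linarith
    _ = 6 * B / ‖x‖ * ‖v‖ := by
        rw [hqn]
        field_simp
        ring

theorem lip_near (F : SF) (B : ℝ) (h1 : ∀ (a : Fin 3) (x : ℍ), |(DZ a F) x| ≤ B) {x y : ℍ}
    (hx : ‖x‖ = 1) (hy : y ∈ ball x (1 / 2)) : |F y - F x| ≤ 12 * B * ‖y - x‖ := by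
  have hB : 0 ≤ B := (abs_nonneg _).trans (h1 0 x)
  have hge : ∀ z ∈ ball x (1 / 2 : ℝ), 1 / 2 ≤ ‖z‖ := by
    intro z hz
    rw [mem_ball, dist_eq_norm] at hz
    have := norm_sub_norm_le x z
    rw [norm_sub_rev] at this
    linarith
  have hne : ∀ z ∈ ball x (1 / 2 : ℝ), z ≠ 0 := by
    intro z hz h0
    have := hge z hz
    rw [h0, norm_zero] at this
    norm_num at this
  have := Convex.norm_image_sub_le_of_norm_fderiv_le (𝕜 := ℝ) (f := (F : ℍ → ℝ))
    (C := 12 * B) (s := ball x (1 / 2)) (x := x) (y := y)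
    (fun z hz => F.differentiableAt (hne z hz)) (fun z hz => ?_) (convex_ball _ _)
    (mem_ball_self (by norm_num)) hy
  · rw [Real.norm_eq_abs] at this
    exact this
  · refine (norm_fderiv_le F B h1 (hne z hz)).trans ?_
    have h2 := hge z hz
    rw [div_le_iff₀ (by linarith)]
    nlinarith

/-- **bounded sequences with bounded derivatives have uniformly convergent subsequences** -/
theorem exists_subseq (F : ℕ → SF) (B : ℝ) (h0 : ∀ m (x : ℍ), |(F m) x| ≤ B)
    (h1 : ∀ m (a : Fin 3) (x : ℍ), |(DZ a (F m)) x| ≤ B) :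
    ∃ (φ : ℕ → ℕ) (z : ℍ → ℝ), StrictMono φ ∧ Cts z ∧ z 0 = 0 ∧
      TendstoUniformlyOn (fun m x => (F (φ m)) x) z atTop {0}ᶜ := by
  classical
  have hsub : sphere (0 : ℍ) 1 ⊆ {0}ᶜ := by
    intro x hx h
    have h' : x = 0 := h
    rw [mem_sphere_zero_iff_norm, h', norm_zero] at hx
    exact zero_ne_one hx
  have hcs : CompactSpace (sphere (0 : ℍ) 1) := isCompact_iff_compactSpace.1 (isCompact_sphere _ _)
  let f : ℕ → BoundedContinuousFunction (sphere (0 : ℍ) 1) ℝ := fun m =>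
    BoundedContinuousFunction.mkOfCompact
      ⟨fun x => (F m) x.1, ((F m).continuousOn.mono hsub).domRestrict⟩
  have hf : ∀ m (x : sphere (0 : ℍ) 1), f m x = (F m) x.1 := fun m x => rfl
  have hB : 0 ≤ B := (abs_nonneg _).trans (h0 0 0)
  have hcpt : IsCompact (closure (range f)) := by
    refine BoundedContinuousFunction.arzela_ascoli (Icc (-B) B) isCompact_Icc _ ?_ ?_
    · rintro _ x ⟨m, rfl⟩
      rw [hf]
      exact abs_le.1 (h0 m x.1)
    · intro x
      rw [Metric.equicontinuousAt_iff]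
      intro ε hε
      have hp : 0 < 12 * B + 1 := by linarith
      refine ⟨min (1 / 2) (ε / (12 * B + 1)), by positivity, ?_⟩
      rintro y hy ⟨_, m, rfl⟩
      show dist (f m x) (f m y) < ε
      rw [hf, hf, dist_comm, Real.dist_eq]
      have hy' : dist y.1 x.1 < min (1 / 2) (ε / (12 * B + 1)) := hy
      have h2 := lip_near (F m) B (h1 m) (x := x.1) (y := y.1)
        (mem_sphere_zero_iff_norm.1 x.2) (lt_of_lt_of_le hy' (min_le_left _ _))
      have h3 : ‖y.1 - x.1‖ < ε / (12 * B + 1) := by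
        rw [← dist_eq_norm]
        exact lt_of_lt_of_le hy' (min_le_right _ _)
      have h4 : (12 * B + 1) * ‖y.1 - x.1‖ < ε := by
        rw [lt_div_iff₀ hp] at h3
        linarith
      have h5 : 12 * B * ‖y.1 - x.1‖ ≤ (12 * B + 1) * ‖y.1 - x.1‖ := by
        apply mul_le_mul_of_nonneg_right (by linarith) (norm_nonneg _)
      linarith
  obtain ⟨g, -, φ, hφ, hlim⟩ := hcpt.tendsto_subseq (x := f)
    (fun m => subset_closure (mem_range_self m))
  have hu : TendstoUniformly (fun m => (f (φ m) : sphere (0 : ℍ) 1 → ℝ)) g atTop :=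
    BoundedContinuousFunction.tendsto_iff_tendstoUniformly.1 hlim
  have hnorm : ∀ x : ℍ, x ≠ 0 → ‖x‖⁻¹ • x ∈ sphere (0 : ℍ) 1 := by
    intro x hx
    rw [mem_sphere_zero_iff_norm, norm_smul, norm_inv, norm_norm,
      inv_mul_cancel₀ (norm_ne_zero_iff.2 hx)]
  let z : ℍ → ℝ := fun x => if hx : x = 0 then 0 else g ⟨‖x‖⁻¹ • x, hnorm x hx⟩
  have hz : ∀ (x : ℍ) (hx : x ≠ 0), z x = g ⟨‖x‖⁻¹ • x, hnorm x hx⟩ := by
    intro x hx
    simp only [z, dif_neg hx]
  have hzu : TendstoUniformlyOn (fun m x => (F (φ m)) x) z atTop {0}ᶜ := by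
    rw [Metric.tendstoUniformlyOn_iff]
    intro ε hε
    filter_upwards [(Metric.tendstoUniformly_iff.1 hu) ε hε] with m hm x hx
    have hx' : x ≠ 0 := hx
    have h2 := hm ⟨‖x‖⁻¹ • x, hnorm x hx'⟩
    rw [hf] at h2
    rw [hz x hx']
    rwa [(F (φ m)).hom (inv_ne_zero (norm_ne_zero_iff.2 hx'))] at h2
  refine ⟨φ, z, hφ, ⟨?_, ?_⟩, by simp [z], hzu⟩
  · exact hzu.continuousOn (Frequently.of_forall fun m => (F (φ m)).continuousOn)
  · intro r x hr hx
    have h2 := hzu.tendsto_at (x := x) hx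
    have h3 := hzu.tendsto_at (x := r • x) (smul_ne_zero hr hx)
    have h4 : (fun m => (F (φ m)) (r • x)) = fun m => (F (φ m)) x := by
      funext m
      exact (F (φ m)).hom hr x
    rw [h4] at h3
    exact tendsto_nhds_unique h3 h2

/-- COMP -/
theorem comp_of (hS : SobStatement) (hN : NormFacts) (hC : CasFacts) : CompStatement := by
  intro y C hy hC'
  obtain ⟨K, hK0, hK⟩ := sup_wordZ_le hS hN
  obtain ⟨e, u, v, -, hX, -, -⟩ := hC.frame
  choose Be hBe0 hBe using fun a => exists_bound (e a)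
  have hCm : ∀ m, K * ener (y m) ≤ K * |C| := fun m =>
    mul_le_mul_of_nonneg_left ((hC' m).trans (le_abs_self C)) hK0
  have hb0 : ∀ m (x : ℍ), |(y m) x| ≤ K * |C| := fun m x =>
    (hK (y m) (hy m) [] (by simp) x).trans (hCm m)
  have hb1 : ∀ m (a : Fin 3) (x : ℍ), |(DZ a (y m)) x| ≤ K * |C| := fun m a x =>
    (hK (y m) (hy m) [a] (by simp) x).trans (hCm m)
  have hb2 : ∀ m (a b : Fin 3) (x : ℍ), |(DZ a (DZ b (y m))) x| ≤ K * |C| := fun m a b x =>
    (hK (y m) (hy m) [a, b] (by simp) x).trans (hCm m)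
  have hM : 0 ≤ K * |C| := by positivity
  set M : ℝ := K * |C| with hMdef
  set T : ℝ := (Be 0 + Be 1 + Be 2) * M with hT
  have hXle : ∀ (G : SF), (∀ a (x : ℍ), |(DZ a G) x| ≤ M) → ∀ x : ℍ, |(DX G) x| ≤ T := by
    intro G hG x
    rw [hX G, sum_apply, Fin.sum_univ_three, mul_apply, mul_apply, mul_apply]
    have hp : ∀ a, |(e a) x * (DZ a G) x| ≤ Be a * M := fun a => by
      rw [abs_mul]
      exact mul_le_mul (hBe a x) (hG a x) (abs_nonneg _) (hBe0 a)
    calc |(e 0) x * (DZ 0 G) x + (e 1) x * (DZ 1 G) x + (e 2) x * (DZ 2 G) x|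
        ≤ |(e 0) x * (DZ 0 G) x| + |(e 1) x * (DZ 1 G) x| + |(e 2) x * (DZ 2 G) x| :=
          abs_add_three _ _ _
      _ ≤ Be 0 * M + Be 1 * M + Be 2 * M := by
          have := hp 0
          have := hp 1
          have := hp 2
          linarith
      _ = T := by rw [hT]; ring
  obtain ⟨φ₁, z, hφ₁, hz, hz0, hzu⟩ := exists_subseq y M hb0 hb1
  have hcX0 : ∀ m (x : ℍ), |(DX (y (φ₁ m))) x| ≤ T := fun m x => hXle _ (hb1 _) x
  have hcX1 : ∀ m (a : Fin 3) (x : ℍ), |(DZ a (DX (y (φ₁ m)))) x| ≤ T := by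
    intro m a x
    rw [← DX_DZ]
    exact hXle _ (fun b x => hb2 _ b a x) x
  obtain ⟨φ₂, q, hφ₂, hq, -, hqu⟩ := exists_subseq (fun m => DX (y (φ₁ m))) T hcX0 hcX1
  have hzu2 : TendstoUniformlyOn (fun m x => (y (φ₁ (φ₂ m))) x) z atTop {0}ᶜ := by
    intro s hs
    exact hφ₂.tendsto_atTop.eventually (hzu s hs)
  refine ⟨φ₁ ∘ φ₂, z, q, hφ₁.comp hφ₂, hz, hq, ⟨?_, ?_⟩, hz0, hzu2, hqu, ?_⟩
  · intro x t
    by_cases hx : x = 0
    · subst hx; rw [zero_mul]
    have h2 := hzu2.tendsto_at (x := x) hx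
    have h3 := hzu2.tendsto_at (x := x * rot qI t) (rrot_ne_zero isImUnit_I hx t)
    have h4 : (fun m => (y (φ₁ (φ₂ m))) (x * rot qI t)) = fun m => (y (φ₁ (φ₂ m))) x := by
      funext m
      exact (hy _).rotI x t
    rw [h4] at h3
    exact tendsto_nhds_unique h3 h2
  · intro x
    by_cases hx : x = 0
    · subst hx; rw [zero_mul]
    have hK0 : qK ≠ 0 := by
      intro h0
      have := isImUnit_K.norm_eq
      rw [h0, norm_zero] at this
      exact zero_ne_one this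
    have h2 := hzu2.tendsto_at (x := x) hx
    have h3 := hzu2.tendsto_at (x := x * qK) (mul_ne_zero hx hK0)
    have h4 : (fun m => (y (φ₁ (φ₂ m))) (x * qK)) = fun m => (y (φ₁ (φ₂ m))) x := by
      funext m
      exact (hy _).mulK x
    rw [h4] at h3
    exact tendsto_nhds_unique h3 h2
  · intro x hx
    have hne : ∀ t, x * rot qK t ∈ ({0}ᶜ : Set ℍ) := fun t => rrot_ne_zero isImUnit_K hx t
    have h2 : TendstoUniformly (fun m t => (DX (y (φ₁ (φ₂ m)))) (x * rot qK t))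
        (fun t => q (x * rot qK t)) atTop := by
      intro s hs
      filter_upwards [hqu s hs] with m hm t
      exact hm _ (hne t)
    exact hasDerivAt_of_tendstoUniformly h2
      (Eventually.of_forall fun m t => (y (φ₁ (φ₂ m))).hasDerivAt_DX hx t)
      (fun t => hzu2.tendsto_at (hne t))

end Pool.Agent.MP85963d.H51
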