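import Pool.Agent.Lib.MP_85963d_gt.H51.Linc2

/-!
# LINC: finitely many singular parameters on the segment from the ball
-/

set_option autoImplicit false

open MeasureTheory Filter Topology Set Metric Quaternion
open scoped Real ContDiff

namespace Pool.Agent.MP85963d.H51

open SF

/-! ### holomorphy -/

theorem diff_entry {D : Set ℂ} (hD : IsOpen D) {W W₁ : ℂ → ℍ → ℂ} {B : ℝ}
    (h : ∀ s ∈ D, (∀ x : ℍ, x ≠ 0 → HasDerivAt (fun s => W s x) (W₁ s x) s ∧ ‖W₁ s x‖ ≤ B) ∧
      ContinuousOn (W s) {0}ᶜ ∧ ContinuousOn (W₁ s) {0}ᶜ) {g : ℍ → ℝ} (hg : ContinuousOn g {0}ᶜ) :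
    DifferentiableOn ℂ (fun s => ∫ x in shell, W s x * (g x : ℂ)) D := by
  intro s hs
  have hgc : ContinuousOn (fun x => (g x : ℂ)) {0}ᶜ :=
    Complex.continuous_ofReal.comp_continuousOn hg
  have hc : ∀ (f : ℍ → ℂ), ContinuousOn f {0}ᶜ → ContinuousOn (fun x => f x * (g x : ℂ)) shell :=
    fun f hf => (hf.mul hgc).mono shell_subset
  have key := hasDerivAt_integral_of_dominated_loc_of_deriv_le
    (μ := volume.restrict shell) (F := fun s x => W s x * (g x : ℂ))
    (F' := fun s x => W₁ s x * (g x : ℂ)) (x₀ := s) (s := D) (bound := fun x => B * |g x|)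
    (hD.mem_nhds hs)
    (by
      filter_upwards [hD.mem_nhds hs] with s' hs'
      exact (hc _ (h s' hs').2.1).aestronglyMeasurable measurableSet_shell)
    ((hc _ (h s hs).2.1).integrableOn_compact isCompact_shell)
    ((hc _ (h s hs).2.2).aestronglyMeasurable measurableSet_shell)
    (by
      rw [ae_restrict_iff' measurableSet_shell]
      refine Eventually.of_forall fun x hx s' hs' => ?_
      rw [norm_mul, Complex.norm_real, Real.norm_eq_abs]
      exact mul_le_mul_of_nonneg_right ((h s' hs').1 x (ne_zero_of_mem_shell hx)).2 (abs_nonneg _))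
    ((integrableOn_shell hg.abs).const_mul B)
    (by
      rw [ae_restrict_iff' measurableSet_shell]
      refine Eventually.of_forall fun x hx s' hs' => ?_
      exact ((h s' hs').1 x (ne_zero_of_mem_shell hx)).1.mul_const _)
  exact key.2.differentiableAt.differentiableWithinAt

theorem diff_det {d : ℕ} {D : Set ℂ} {M : ℂ → Matrix (Fin d) (Fin d) ℂ}
    (h : ∀ i j, DifferentiableOn ℂ (fun s => M s i j) D) :
    DifferentiableOn ℂ (fun s => (M s).det) D := by
  simp only [Matrix.det_apply]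
  refine DifferentiableOn.fun_sum fun σ _ => ?_
  refine DifferentiableOn.const_smul ?_ _
  exact DifferentiableOn.fun_finsetProd fun i _ => h _ _

theorem integral_split {U : ℍ → ℂ} (hU : ContinuousOn U {0}ᶜ) (y η : SF) :
    ∫ x in shell, U x * ((y x * (psi η) x : ℝ) : ℂ)
      = (Bil (fun x => (U x).re) y η : ℂ) + Complex.I * (Bil (fun x => (U x).im) y η : ℂ) := by
  have hg : ContinuousOn (fun x => ((y x * (psi η) x : ℝ) : ℂ)) {0}ᶜ :=
    Complex.continuous_ofReal.comp_continuousOn (y.continuousOn.mul (psi η).continuousOn)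
  have hint : IntegrableOn (fun x => U x * ((y x * (psi η) x : ℝ) : ℂ)) shell :=
    ((hU.mul hg).mono shell_subset).integrableOn_compact isCompact_shell
  have h1 := integral_re_add_im hint
  rw [← h1]
  have e1 : ∀ x, RCLike.re (U x * ((y x * (psi η) x : ℝ) : ℂ)) = (U x).re * y x * (psi η) x := by
    intro x
    show (U x * ((y x * (psi η) x : ℝ) : ℂ)).re = _
    rw [Complex.re_mul_ofReal]; ring
  have e2 : ∀ x, RCLike.im (U x * ((y x * (psi η) x : ℝ) : ℂ)) = (U x).im * y x * (psi η) x := by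
    intro x
    show (U x * ((y x * (psi η) x : ℝ) : ℂ)).im = _
    rw [Complex.im_mul_ofReal]; ring
  simp only [e1, e2]
  rw [Bil, Bil, mul_comm Complex.I]
  rfl

theorem SNk_mono (hM : MNFacts) (k : ℕ) {m n : ℕ} (h : m ≤ n) {F : SF} (hF : F ∈ SNk k m) :
    F ∈ SNk k n :=
  ⟨⟨hM.mono m n h hF.1.1, hF.1.2⟩, hF.2⟩

/-- **LINC** -/
theorem linC_of (hAn : AnalStatement) (hLA : LinalgStatement) (hCW : CWeightStatement)
    (hG : GardStatement) (hSp : SpecStatement) (hF : FamFacts) (hW : WSFacts) (hMo : ModeFacts)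
    (hD : DensFacts) (hPe : PestStatement) (hPsi : PsiFacts) (hM : MNFacts) (hC : CasFacts) :
    LinCStatement := by
  intro p hp hpr k hk
  -- uniform constants
  obtain ⟨c₀, hc₀, hlow⟩ := hF.low 1 p hW.adm_one hp
  obtain ⟨B, hB⟩ := hF.bd 1 p hW.adm_one hp 4
  obtain ⟨c, hc, C, hC0, n₀, hgard⟩ := gard_proj hG hSp hM hPsi hMo hC c₀ B hc₀
  obtain ⟨δ, hδ, W, W₁, BW, hWs, hWr⟩ := hCW p hp (c / 16) (by positivity)
  have hfd₀ : FiniteDimensional ℝ (MN n₀) := hM.finite n₀
  obtain ⟨d₀, e, he⟩ := exists_onb (MN n₀)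
  obtain ⟨K, κ, hκ, hLA⟩ := hLA d₀ (c / 2) C (by positivity) hC0
  have hfd : ∀ n, FiniteDimensional ℝ (SNk k n) := fun n => by
    have := hM.finite n
    exact Submodule.finiteDimensional_of_le (fun F hF => hF.1.1 : SNk k n ≤ MN n)
  choose d b hb using fun n => @exists_onb (SNk k n) (hfd n)
  have hle : ∀ n, SNk k n ≤ UN n := fun n F hF => hF.1
  have hbU : ∀ n i, (b n i : SF) ∈ UN n := fun n i => hle n (b n i).2
  -- the real weights
  have hadm : ∀ s ∈ Icc (0:ℝ) 1, Adm (seg 1 p s) := hW.seg_adm 1 p hW.adm_one hp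
  have hwf : ∀ s ∈ Icc (0:ℝ) 1, ∀ x : ℍ, x ≠ 0 → wf (seg 1 p s) x = (wS (seg 1 p s)) x :=
    fun s hs x hx => (hW.wS_apply _ (hadm s hs) x hx).symm
  have hwfc : ∀ s ∈ Icc (0:ℝ) 1, Cts (wf (seg 1 p s)) := fun s hs =>
    H2.cts_congr (hwf s hs) (cts_coe _)
  -- the matrices
  let M : ∀ n, ℂ → Matrix (Fin (d n)) (Fin (d n)) ℂ := fun n s =>
    Matrix.of fun i j =>
      (Bil (fun x => (W s x).re) (b n j : SF) (b n i : SF) : ℂ)
        + Complex.I * (Bil (fun x => (W s x).im) (b n j : SF) (b n i : SF) : ℂ)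
  let E : ∀ n, Matrix (Fin d₀) (Fin (d n)) ℝ := fun n =>
    Matrix.of fun l i => ip (e l : SF) (b n i : SF)
  have hE : ∀ n l, ∑ i, E n l i ^ 2 ≤ 1 := by
    intro n l
    have h1 := (hb n).bessel (e l : SF)
    have h2 : nrm (e l : SF) ^ 2 = 1 := by
      rw [nrm_sq']
      have := he l l
      simpa using this
    rw [h2] at h1
    exact h1
  -- coercivity
  have hcoer : ∀ n, ∀ s ∈ cnbhd δ, ∀ z : Fin (d n) → ℂ, c / 2 * ∑ i, ‖z i‖ ^ 2 ≤
      (∑ i, (starRingEnd ℂ) (z i) * ((M n s).mulVec z) i).re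
        + C * ∑ l, ‖∑ i, (E n l i : ℂ) * z i‖ ^ 2 := by
    intro n s hs z
    obtain ⟨-, -, -, r, hr, hf1, hf2⟩ := hWs s hs
    set w : SF := wS (seg 1 p r) with hw
    have hRe : Cts (fun x => (W s x).re) := by
      have e1 : (fun x => (W s x).re)
          = fun x => ((W s x).re - wf (seg 1 p r) x) + wf (seg 1 p r) x := by
        funext x; ring
      rw [e1]
      exact ⟨hf1.cts.cont.add (hwfc r hr).cont, fun t x ht hx => by
        have h1 := hf1.cts.hom t x ht hx
        have h2 := (hwfc r hr).hom t x ht hx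
        rw [h1, h2]⟩
    have hIm : Cts (fun x => (W s x).im) := hf2.cts
    have hquad := re_quad (H72.mat (b n) fun x => (W s x).re)
      (H72.mat (b n) fun x => (W s x).im) z
    have hMeq : M n s = Matrix.of fun i j => ((H72.mat (b n) fun x => (W s x).re) i j : ℂ)
        + Complex.I * ((H72.mat (b n) fun x => (W s x).im) i j : ℂ) := rfl
    rw [hMeq, hquad, dot_mat' hPsi hRe (hle n), dot_mat' hPsi hRe (hle n),
      dot_mat' hPsi hIm (hle n), dot_mat' hPsi hIm (hle n)]
    set a : Fin (d n) → ℝ := fun i => (z i).re with ha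
    set a' : Fin (d n) → ℝ := fun i => (z i).im with ha'
    set A : SF := ∑ j, a j • (b n j : SF) with hA
    set A' : SF := ∑ j, a' j • (b n j : SF) with hA'
    have hAm : A ∈ SNk k n := (SNk k n).sum_mem fun i _ => (SNk k n).smul_mem _ (b n i).2
    have hA'm : A' ∈ SNk k n := (SNk k n).sum_mem fun i _ => (SNk k n).smul_mem _ (b n i).2
    have hnA : nrm A ^ 2 = ∑ i, a i ^ 2 := (hb n).nrm_sum a
    have hnA' : nrm A' ^ 2 = ∑ i, a' i ^ 2 := (hb n).nrm_sum a'
    have hz : ∑ i, ‖z i‖ ^ 2 = nrm A ^ 2 + nrm A' ^ 2 := by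
      rw [hnA, hnA', ← Finset.sum_add_distrib]
      refine Finset.sum_congr rfl fun i _ => ?_
      rw [← Complex.normSq_eq_norm_sq, Complex.normSq_apply]
      ring
    have hEz : ∀ l, ‖∑ i, (E n l i : ℂ) * z i‖ ^ 2 = ip A (e l : SF) ^ 2 + ip A' (e l : SF) ^ 2 := by
      intro l
      have h1 : ∑ i, (E n l i : ℂ) * z i = (ip A (e l : SF) : ℂ) + ip A' (e l : SF) * Complex.I := by
        rw [hA, hA', ip_sum_left, ip_sum_left, Complex.ofReal_sum, Complex.ofReal_sum,
          Finset.sum_mul, ← Finset.sum_add_distrib]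
        refine Finset.sum_congr rfl fun i _ => ?_
        rw [ip_smul_left, ip_smul_left, ip_comm (b n i : SF)]
        have h3 : (E n l i) = ip (e l : SF) (b n i : SF) := rfl
        rw [h3]
        have h4 : z i = (a i : ℂ) + a' i * Complex.I := (Complex.re_add_im (z i)).symm
        rw [h4]
        push_cast
        ring
      rw [h1, ← Complex.normSq_eq_norm_sq, Complex.normSq_add_mul_I]
    have hEsum : ∑ l, ‖∑ i, (E n l i : ℂ) * z i‖ ^ 2
        = ∑ l, ip A (e l : SF) ^ 2 + ∑ l, ip A' (e l : SF) ^ 2 := by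
      rw [← Finset.sum_add_distrib]
      exact Finset.sum_congr rfl fun l _ => hEz l
    -- Garding for `A` and `A'`
    have hwK : IsKlein w := hW.wS_klein _ (hadm r hr)
    have hg : ∀ F ∈ SNk k n, c * nrm F ^ 2 ≤ Bil w F F + C * ∑ l, ip F (e l : SF) ^ 2 := by
      intro F hF
      obtain ⟨q1, q2, q3⟩ := ON.proj e he F
      have h1 := hgard w hwK (fun x hx => (hlow r hr x hx).2.2) (hB r hr).2 k n hk F hF _ q1 q2
      rw [q3] at h1
      exact h1
    have hsplit : ∀ F G : SF, Bil (fun x => (W s x).re) F G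
        = Bil w F G + Bil (fun x => (W s x).re - wf (seg 1 p r) x) F G := by
      intro F G
      rw [← Bil_add_weight w.continuousOn hf1.cts.cont]
      apply H2.Bil_congr
      intro x hx
      rw [hwf r hr x hx]
      ring
    have hε : (0:ℝ) ≤ c / 16 := by positivity
    have s1 := small_bil hPe hε hf1 (y := A) (η := A) hAm.1.2 hAm.1
    have s2 := small_bil hPe hε hf1 (y := A') (η := A') hA'm.1.2 hA'm.1
    have s3 := small_bil hPe hε hf2 (y := A') (η := A) hA'm.1.2 hAm.1
    have s4 := small_bil hPe hε hf2 (y := A) (η := A') hAm.1.2 hA'm.1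
    have g1 := hg A hAm
    have g2 := hg A' hA'm
    rw [hsplit A A, hsplit A' A', hz, hEsum]
    have t1 := abs_le.1 s1
    have t2 := abs_le.1 s2
    have t3 := abs_le.1 s3
    have t4 := abs_le.1 s4
    have am : 2 * (nrm A * nrm A') ≤ nrm A ^ 2 + nrm A' ^ 2 := by
      nlinarith [sq_nonneg (nrm A - nrm A')]
    have am' : c * (2 * (nrm A * nrm A')) ≤ c * (nrm A ^ 2 + nrm A' ^ 2) :=
      mul_le_mul_of_nonneg_left am hc.le
    have hp1 : 0 ≤ c * nrm A ^ 2 := by positivity
    have hp2 : 0 ≤ c * nrm A' ^ 2 := by positivity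
    nlinarith
  -- consequences of the linear algebra
  have hlin := fun n s (hs : s ∈ cnbhd δ) => hLA (d n) (M n s) (E n) (hE n) (hcoer n s hs)
  -- holomorphy
  have hopen : IsOpen (cnbhd δ) := isOpen_thickening
  have hMdiff : ∀ n i j, DifferentiableOn ℂ (fun s => M n s i j) (cnbhd δ) := by
    intro n i j
    have h1 := diff_entry hopen (W := W) (W₁ := W₁) (B := BW)
      (fun s hs => ⟨fun x hx => ⟨((hWs s hs).1 x hx).1, ((hWs s hs).1 x hx).2.2⟩,
        (hWs s hs).2.1, (hWs s hs).2.2.1⟩)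
      (g := fun x => (b n j : SF) x * (psi (b n i : SF)) x)
      ((b n j : SF).continuousOn.mul (psi (b n i : SF)).continuousOn)
    refine h1.congr fun s hs => ?_
    exact (integral_split (hWs s hs).2.1 _ _).symm
  have hNdiff : ∀ n i j, DifferentiableOn ℂ (fun s => (Nmat C (M n s) (E n)) i j) (cnbhd δ) := by
    intro n i j
    simp only [Nmat, Matrix.add_apply]
    exact (hMdiff n i j).add_const _
  let dd : ℕ → ℂ → ℂ := fun n s => (M n s).det / (Nmat C (M n s) (E n)).det
  have hddiff : ∀ n, DifferentiableOn ℂ (dd n) (cnbhd δ) := fun n =>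
    (diff_det (hMdiff n)).div (diff_det (hNdiff n)) fun s hs => (hlin n s hs).1
  -- the neighbourhood
  have hsubD : Complex.ofReal '' Icc (0:ℝ) 1 ⊆ cnbhd δ := self_subset_thickening hδ _
  have hconv : Convex ℝ (cnbhd δ) := by
    apply Convex.thickening
    exact (convex_Icc (0:ℝ) 1).linear_image Complex.ofRealCLM.toLinearMap
  have hKc : IsCompact (Complex.ofReal '' Icc (0:ℝ) 1) :=
    isCompact_Icc.image Complex.continuous_ofReal
  have h0D : ((0:ℝ) : ℂ) ∈ cnbhd δ := hsubD ⟨0, by simp, rfl⟩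
  -- the value at zero
  have hM0 : ∀ n, M n ((0:ℝ) : ℂ) = 1 := by
    intro n
    have hseg : seg 1 p 0 = 1 := by simp [seg]
    have hW0 : ∀ x : ℍ, x ≠ 0 → W ((0:ℝ) : ℂ) x = 1 := by
      intro x hx
      rw [hWr 0 (by simp) x hx, hseg, ← hW.wS_apply 1 hW.adm_one x hx, hW.wS_one, one_apply hx]
      simp
    ext i j
    show (Bil (fun x => (W ((0:ℝ) : ℂ) x).re) (b n j : SF) (b n i : SF) : ℂ)
        + Complex.I * (Bil (fun x => (W ((0:ℝ) : ℂ) x).im) (b n j : SF) (b n i : SF) : ℂ) = _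
    have h1 : Bil (fun x => (W ((0:ℝ) : ℂ) x).re) (b n j : SF) (b n i : SF)
        = ip (b n j : SF) (b n i : SF) := by
      rw [H2.Bil_congr (w' := fun _ => 1) (fun x hx => by rw [hW0 x hx]; simp)]
      rw [← hPsi.pair n (b n i : SF) (hbU n i) (b n j : SF) (cts_coe _) (hbU n j).2]
      simp [Bil, ip]
    have h2 : Bil (fun x => (W ((0:ℝ) : ℂ) x).im) (b n j : SF) (b n i : SF) = 0 := by
      rw [H2.Bil_congr (w' := fun _ => 0) (fun x hx => by rw [hW0 x hx]; simp)]
      simp [Bil]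
    rw [h1, h2, hb n j i, Matrix.one_apply]
    by_cases hij : i = j
    · subst hij; simp
    · rw [if_neg (fun h => hij h.symm), if_neg hij]; simp
  have hfin := hAn (cnbhd δ) dd K κ ((0:ℝ) : ℂ) (Complex.ofReal '' Icc (0:ℝ) 1) hopen
    hconv.isPreconnected hddiff (fun n s hs => (hlin n s hs).2.1) h0D hκ
    (fun n => (hlin n _ h0D).2.2.2 (hM0 n)) hKc hsubD
  refine (hfin.preimage (Complex.ofReal_injective.injOn)).subset ?_
  rintro s ⟨hs, hker⟩
  refine ⟨⟨s, hs, rfl⟩, ?_⟩
  -- a kernel element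
  unfold KerTriv at hker
  push Not at hker
  obtain ⟨y, hy, hyU, hyM, hyK, x₀, hx₀, hyx₀⟩ := hker
  set w : SF := wS (seg 1 p s) with hw
  have hwK : IsKlein w := hW.wS_klein _ (hadm s hs)
  have hBd1 : Bd 1 B w := fun l hl x => (hB s hs).2 l (hl.trans (by norm_num)) x
  have hyK' : KerK w y := by
    intro x hx
    have h4 := hyK x hx
    have h5 : avgK (fun z => w z * y z) x = avgK (fun z => wf (seg 1 p s) z * y z) x := by
      rw [avgK, avgK]
      congr 1
      refine intervalIntegral.integral_congr fun t _ => ?_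
      rw [hwf s hs _ (rrot_ne_zero isImUnit_K hx t)]
    rw [h5, h4]
  obtain ⟨ν, hν, happ⟩ := kernel_approx hPe hPsi hD hk hwK hBd1 hy hyU hyM hyK' hx₀ hyx₀
  have hsD : (s : ℂ) ∈ cnbhd δ := hsubD ⟨s, hs, rfl⟩
  have hK0 : 0 ≤ K := (norm_nonneg _).trans (hlin 0 _ hsD).2.1
  rw [Metric.tendsto_atTop]
  intro ε hε
  obtain ⟨n₁, F, hFm, hFν, hFB⟩ := happ (ν * ε / (K + 1)) (by positivity)
  refine ⟨n₁, fun n hn => ?_⟩
  have hFn : F ∈ SNk k n := SNk_mono hM k hn hFm
  have hrep := ON.repr (b n) (hb n) hFn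
  set z : Fin (d n) → ℂ := fun i => ((ip F (b n i : SF) : ℝ) : ℂ) with hz
  have hzn : ∑ i, ‖z i‖ ^ 2 = nrm F ^ 2 := by
    have h1 := (hb n).nrm_sum fun i => ip F (b n i : SF)
    rw [← hrep] at h1
    rw [h1]
    refine Finset.sum_congr rfl fun i _ => ?_
    rw [hz]
    simp only [Complex.norm_real, Real.norm_eq_abs, sq_abs]
  have hzne : z ≠ 0 := by
    intro h0
    rw [h0] at hzn
    simp at hzn
    have : nrm F = 0 := by
      have := hzn.symm
      simpa using this
    linarith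
  have hMz : ∀ i, ((M n (s : ℂ)).mulVec z) i = ((Bil w F (b n i : SF) : ℝ) : ℂ) := by
    intro i
    have h1 : Bil w F (b n i : SF) = ∑ j, ip F (b n j : SF) * Bil w (b n j : SF) (b n i : SF) := by
      have h2 := H72.mat_mulVec hPsi (cts_coe w) (hle n) (b n) (fun j => ip F (b n j : SF)) i
      simp only [Submodule.coe_sum, Submodule.coe_smul] at h2
      rw [← hrep] at h2
      rw [← h2]
      simp only [Matrix.mulVec, dotProduct, H72.mat, Matrix.of_apply]
      exact Finset.sum_congr rfl fun j _ => mul_comm _ _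
    rw [h1]
    simp only [Matrix.mulVec, dotProduct]
    rw [Complex.ofReal_sum]
    refine Finset.sum_congr rfl fun j _ => ?_
    show ((Bil (fun x => (W (s : ℂ) x).re) (b n j : SF) (b n i : SF) : ℂ)
        + Complex.I * (Bil (fun x => (W (s : ℂ) x).im) (b n j : SF) (b n i : SF) : ℂ)) * z j = _
    have h3 : Bil (fun x => (W (s : ℂ) x).re) (b n j : SF) (b n i : SF)
        = Bil w (b n j : SF) (b n i : SF) :=
      H2.Bil_congr (fun x hx => by rw [hWr s hs x hx, Complex.ofReal_re, hwf s hs x hx]) _ _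
    have h4 : Bil (fun x => (W (s : ℂ) x).im) (b n j : SF) (b n i : SF) = 0 := by
      rw [H2.Bil_congr (w' := fun _ => 0)
        (fun x hx => by rw [hWr s hs x hx, Complex.ofReal_im])]
      simp [Bil]
    rw [h3, h4, hz]
    push_cast
    ring
  -- the residual is small
  set Q : ℝ := ∑ i, Bil w F (b n i : SF) ^ 2 with hQ
  have hQ0 : 0 ≤ Q := Finset.sum_nonneg fun i _ => sq_nonneg _
  set η : SF := ∑ i, Bil w F (b n i : SF) • (b n i : SF) with hη
  have hηm : η ∈ SNk k n := (SNk k n).sum_mem fun i _ => (SNk k n).smul_mem _ (b n i).2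
  have hηn : nrm η ^ 2 = Q := (hb n).nrm_sum _
  have hBη : Bil w F η = Q := by
    have h1 := dot_mat' hPsi (cts_coe w) (hle n) (b n) (fun i => Bil w F (b n i : SF))
      (fun j => ip F (b n j : SF))
    rw [← hrep] at h1
    rw [hη, ← h1]
    simp only [dotProduct]
    refine Finset.sum_congr rfl fun i _ => ?_
    have h2 := H72.mat_mulVec hPsi (cts_coe w) (hle n) (b n) (fun j => ip F (b n j : SF)) i
    simp only [Submodule.coe_sum, Submodule.coe_smul] at h2
    rw [← hrep] at h2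
    rw [h2]
    ring
  have hsmall : nrm η ≤ ν * ε / (K + 1) := by
    have h1 := hFB n η hηm.1
    rw [hBη, abs_of_nonneg hQ0, ← hηn] at h1
    rcases (nrm_nonneg η).eq_or_lt with h0 | h0
    · rw [← h0]; positivity
    · have h2 : nrm η * nrm η ≤ nrm η * (ν * ε / (K + 1)) := by nlinarith
      exact le_of_mul_le_mul_left h2 h0
  have hfinal := (hlin n _ hsD).2.2.1 (ε / (K + 1)) z (by positivity) hzne (by
    have h1 : ∑ i, ‖((M n (s : ℂ)).mulVec z) i‖ ^ 2 = Q := by
      rw [hQ]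
      refine Finset.sum_congr rfl fun i _ => ?_
      rw [hMz, Complex.norm_real, Real.norm_eq_abs, sq_abs]
    rw [h1, hzn, ← hηn]
    have h2 : nrm η ≤ ε / (K + 1) * nrm F := by
      calc nrm η ≤ ν * ε / (K + 1) := hsmall
        _ = ε / (K + 1) * ν := by ring
        _ ≤ ε / (K + 1) * nrm F := mul_le_mul_of_nonneg_left hFν (by positivity)
    calc nrm η ^ 2 ≤ (ε / (K + 1) * nrm F) ^ 2 := pow_le_pow_left₀ (nrm_nonneg _) h2 2
      _ = (ε / (K + 1)) ^ 2 * nrm F ^ 2 := by ring)
  rw [dist_zero_right]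
  refine lt_of_le_of_lt hfinal ?_
  have h1 : K * (ε / (K + 1)) = ε * (K / (K + 1)) := by ring
  rw [h1]
  have h2 : K / (K + 1) < 1 := by
    rw [div_lt_one (by linarith)]
    linarith
  nlinarith

end Pool.Agent.MP85963d.H51
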