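import Pool.Agent.Lib.MP_85963d_gt.Interfaces

/-!
# LINC: statements of the two auxiliary modules
-/

set_option autoImplicit false

open MeasureTheory Filter Topology Set Metric Quaternion
open scoped Real ContDiff

namespace Pool.Agent.MP85963d.H51

open SF

/-- Klein-invariant functions which are bounded by `ε` together with their derivative along the
circles `x rot(i,t)`. -/
structure SmallMult (ε : ℝ) (f : ℍ → ℝ) : Prop where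
  cts : Cts f
  klein : IsKlein f
  bound : ∀ x : ℍ, x ≠ 0 → |f x| ≤ ε
  deriv : ∃ g : ℍ → ℝ, Cts g ∧ (∀ x : ℍ, x ≠ 0 → |g x| ≤ ε) ∧
    ∀ x : ℍ, x ≠ 0 → ∀ t : ℝ, HasDerivAt (fun t => f (x * rot qI t)) (g (x * rot qI t)) t

/-- complex neighbourhood of the segment `[0,1]` -/
def cnbhd (δ : ℝ) : Set ℂ := Metric.thickening δ (Complex.ofReal '' Icc (0:ℝ) 1)

/-- CWEIGHT. The weights of `p_s = (1-s) + s p` for complex `s` near `[0,1]`: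
`W s x = (p_s + X²p_s) * (p_s² + (X p_s)²)^(-3/2)` (principal power), `W₁ = ∂W/∂s`. -/
def CWeightStatement : Prop :=
  ∀ p : SF, Adm p → ∀ ε : ℝ, 0 < ε → ∃ δ : ℝ, 0 < δ ∧ ∃ (W W₁ : ℂ → ℍ → ℂ) (B : ℝ),
    (∀ s ∈ cnbhd δ,
      (∀ x : ℍ, x ≠ 0 → HasDerivAt (fun s => W s x) (W₁ s x) s ∧ ‖W s x‖ ≤ B ∧ ‖W₁ s x‖ ≤ B) ∧
      ContinuousOn (W s) {0}ᶜ ∧ ContinuousOn (W₁ s) {0}ᶜ ∧
      ∃ r ∈ Icc (0:ℝ) 1, SmallMult ε (fun x => (W s x).re - wf (seg 1 p r) x) ∧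
        SmallMult ε (fun x => (W s x).im)) ∧
    ∀ s ∈ Icc (0:ℝ) 1, ∀ x : ℍ, x ≠ 0 → W (s : ℂ) x = (wf (seg 1 p s) x : ℂ)

/-- the matrix `M + C Eᵀ E` -/
noncomputable def Nmat {d₀ d : ℕ} (C : ℝ) (M : Matrix (Fin d) (Fin d) ℂ)
    (E : Matrix (Fin d₀) (Fin d) ℝ) : Matrix (Fin d) (Fin d) ℂ :=
  M + (C : ℂ) • (E.transpose * E).map ((↑) : ℝ → ℂ)

/-- LINALG. `det M / det N = det (1 - C E N⁻¹ Eᵀ)` for `N = M + C Eᵀ E` (Weinstein-Aronszajn) and its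
consequences if `N` is coercive. -/
def LinalgStatement : Prop :=
  ∀ (d₀ : ℕ) (c C : ℝ), 0 < c → 0 ≤ C → ∃ K κ : ℝ, 0 < κ ∧
    ∀ (d : ℕ) (M : Matrix (Fin d) (Fin d) ℂ) (E : Matrix (Fin d₀) (Fin d) ℝ),
    (∀ k, ∑ i, E k i ^ 2 ≤ 1) →
    (∀ z : Fin d → ℂ, c * ∑ i, ‖z i‖ ^ 2 ≤
      (∑ i, (starRingEnd ℂ) (z i) * (M.mulVec z) i).re + C * ∑ k, ‖∑ i, (E k i : ℂ) * z i‖ ^ 2) →
    (Nmat C M E).det ≠ 0 ∧
    ‖M.det / (Nmat C M E).det‖ ≤ K ∧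
    (∀ (ε : ℝ) (z : Fin d → ℂ), 0 ≤ ε → z ≠ 0 →
      ∑ i, ‖(M.mulVec z) i‖ ^ 2 ≤ ε ^ 2 * ∑ i, ‖z i‖ ^ 2 →
      ‖M.det / (Nmat C M E).det‖ ≤ K * ε) ∧
    (M = 1 → κ ≤ ‖M.det / (Nmat C M E).det‖)

end Pool.Agent.MP85963d.H51
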