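import Pool.Agent.Lib.MP_85963d_gt.H51.Comp
import Pool.Agent.Lib.MP_85963d_gt.H51.LincDefs

/-!
# LINC, part 1: the Garding inequality with a finite-dimensional projection
-/

set_option autoImplicit false

open MeasureTheory Filter Topology Set Metric Quaternion
open scoped Real ContDiff

namespace Pool.Agent.MP85963d.H51

open SF

theorem cts_coe (F : SF) : Cts F := ⟨F.continuousOn, fun r x hr _ => F.hom hr x⟩

theorem ip_sub_left (F G K : SF) : ip (F - G : SF) K = ip F K - ip G K := by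
  rw [sub_eq_add_neg, ip_add_left, ip_neg_left, ← sub_eq_add_neg]

theorem ip_sub_right (F G K : SF) : ip K (F - G : SF) = ip K F - ip K G := by
  rw [sub_eq_add_neg, ip_add_right, ip_neg_right, ← sub_eq_add_neg]

theorem abs_ip_le' (F G : SF) : |ip F G| ≤ nrm F * nrm G :=
  abs_ip_le F.continuousOn G.continuousOn

theorem lap_mem_MN (hM : MNFacts) {n : ℕ} {F : SF} (h : F ∈ MN n) : Lap F ∈ MN n := by
  rw [Lap_eq]
  exact (MN n).add_mem ((MN n).add_mem (hM.Z_mem _ _ _ (hM.Z_mem _ _ _ h))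
    (hM.Z_mem _ _ _ (hM.Z_mem _ _ _ h))) (hM.Z_mem _ _ _ (hM.Z_mem _ _ _ h))

theorem lap_one : Lap (1 : SF) = 0 := by
  rw [Lap_eq]
  simp

theorem isU_one : IsU (1 : SF) := by
  have h : ∀ ρ : ℍ, ρ ≠ 0 → ∀ x : ℍ, (1 : SF) (x * ρ) = (1 : SF) x := by
    intro ρ hρ x
    by_cases hx : x = 0
    · subst hx; rw [zero_mul]
    · rw [one_apply hx, one_apply (mul_ne_zero hx hρ)]
  refine ⟨fun x t => h _ (rot_ne_zero isImUnit_I t) x, fun x => h _ ?_ x⟩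
  intro h0
  have := isImUnit_K.norm_eq
  rw [h0, norm_zero] at this
  exact zero_ne_one this

theorem mem_MN_zero {F : SF} (h : F ∈ MN 0) : ∃ c : ℝ, F = c • (1 : SF) := by
  obtain ⟨P, hP, hF⟩ := h
  have h1 : P.totalDegree = 0 := by
    have := hP.totalDegree_le
    omega
  rw [MvPolynomial.totalDegree_eq_zero_iff_eq_C] at h1
  refine ⟨P.coeff 0, ?_⟩
  apply ext'
  intro x hx
  rw [hF x hx, h1, smul_apply, one_apply hx]
  simp

theorem ip_self_nonneg (F : SF) : 0 ≤ ip F F := by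
  rw [← nrm_sq']; positivity

theorem nrm_pos {F : SF} (h : F ≠ 0) : 0 < nrm F :=
  lt_of_le_of_ne (nrm_nonneg _) fun h0 => h (eq_zero_of_nrm h0.symm)

theorem nrm_one_pos : 0 < nrm (1 : SF) := by
  apply nrm_pos
  intro h
  have h1 : ((1 : SF) : ℍ → ℝ) (1 : ℍ) = (0 : SF) (1 : ℍ) := by rw [h]
  rw [one_apply one_ne_zero, zero_apply] at h1
  exact one_ne_zero h1

theorem spec_bounds {L t m : ℝ} (hL : 0 < L) (ht : 0 ≤ t) (hm : 0 ≤ m)
    {q : ℝ} (h1 : L * t ^ 2 ≤ q) (h2 : q ≤ m * t) : t ≤ m / L ∧ q ≤ m ^ 2 / L := by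
  have h3 : L * t ^ 2 ≤ m * t := h1.trans h2
  have h4 : t ≤ m / L := by
    rw [le_div_iff₀ hL]
    rcases ht.eq_or_lt with h0 | h0
    · rw [← h0]; simpa using hm
    · have : L * t ≤ m := by
        by_contra hcon
        push Not at hcon
        nlinarith
      linarith
  refine ⟨h4, h2.trans ?_⟩
  calc m * t ≤ m * (m / L) := mul_le_mul_of_nonneg_left h4 hm
    _ = m ^ 2 / L := by ring

/-- **Garding inequality modulo a finite-dimensional projection** -/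
theorem gard_proj (hG : GardStatement) (hSp : SpecStatement) (hM : MNFacts) (hP : PsiFacts)
    (hMo : ModeFacts) (hC : CasFacts) (c₀ B : ℝ) (hc₀ : 0 < c₀) :
    ∃ c : ℝ, 0 < c ∧ ∃ C : ℝ, 0 ≤ C ∧ ∃ n₀ : ℕ, ∀ w : SF, IsKlein w →
      (∀ x : ℍ, x ≠ 0 → c₀ ≤ w x) → Bd 4 B w →
      ∀ (k n : ℕ), 1 ≤ k → ∀ y ∈ SNk k n, ∀ Y ∈ MN n₀, (∀ G ∈ MN n₀, ip y G = ip Y G) →
        c * nrm y ^ 2 ≤ Bil w y y + C * nrm Y ^ 2 := by
  obtain ⟨c, hc, C, hgard⟩ := hG c₀ B hc₀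
  obtain ⟨n₀, hn₀⟩ := exists_nat_ge (10 * |C| / c)
  set δ : ℝ := 1 / ((n₀ : ℝ) + 1) with hδ
  have hn1 : (0 : ℝ) < (n₀ : ℝ) + 1 := by positivity
  have hδ0 : 0 < δ := by positivity
  have hδ1 : δ ≤ 1 := by
    rw [hδ, div_le_one hn1]
    have : (0 : ℝ) ≤ n₀ := Nat.cast_nonneg _
    linarith
  have hδc : 10 * |C| * δ ≤ c := by
    rw [hδ, mul_one_div, div_le_iff₀ hn1]
    rw [div_le_iff₀ hc] at hn₀
    nlinarith
  refine ⟨c / 2, by positivity, |C| * (9 / δ + 2), by positivity, n₀, ?_⟩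
  intro w hwK hw hwB k n hk y hy Y hY hYy
  obtain ⟨χ, hχ, hLχ⟩ := hMo.lap_surj k n hk y hy
  -- subtract the mean
  set α : ℝ := ip χ (1 : SF) / ip (1 : SF) (1 : SF) with hα
  have h11 : 0 < ip (1 : SF) (1 : SF) := by
    rw [← nrm_sq']
    have := nrm_one_pos
    positivity
  set χ₁ : SF := χ - α • (1 : SF) with hχ₁
  have hχ₁U : χ₁ ∈ UN n :=
    (UN n).sub_mem hχ.1 ((UN n).smul_mem α ⟨hM.one_mem n, isU_one⟩)
  have hLχ₁ : Lap χ₁ = y := by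
    rw [hχ₁, map_sub, map_smul, lap_one, smul_zero, sub_zero, hLχ]
  have hχ₁0 : ∀ G ∈ MN 0, ip χ₁ G = 0 := by
    intro G hG
    obtain ⟨g, rfl⟩ := mem_MN_zero hG
    rw [ip_smul_right, hχ₁, ip_sub_left, ip_smul_left, hα, div_mul_cancel₀ _ h11.ne', sub_self,
      mul_zero]
  -- projection
  obtain ⟨χ₀, hχ₀, hχ₀p⟩ := hM.proj n₀ χ₁ (cts_coe χ₁)
  set χ' : SF := χ₁ - χ₀ with hχ'
  have hχ'perp : ∀ G ∈ MN n₀, ip χ' G = 0 := by
    intro G hG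
    rw [hχ', ip_sub_left, hχ₀p G hG, sub_self]
  have hχ'mem : χ' ∈ MN (max n n₀) :=
    (MN _).sub_mem (hM.mono _ _ (le_max_left _ _) hχ₁U.1) (hM.mono _ _ (le_max_right _ _) hχ₀)
  have hLχ₀ : Lap χ₀ = Y := by
    have h1 : ∀ G ∈ MN n₀, ip (Lap χ₀ - Y : SF) G = 0 := by
      intro G hG
      rw [ip_sub_left, hC.symm, ← hχ₀p _ (lap_mem_MN hM hG), ← hC.symm, hLχ₁, hYy G hG, sub_self]
    have h2 := h1 _ ((MN n₀).sub_mem (lap_mem_MN hM hχ₀) hY)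
    rw [← nrm_sq'] at h2
    have h3 : nrm (Lap χ₀ - Y : SF) = 0 := by
      rwa [sq_eq_zero_iff] at h2
    exact sub_eq_zero.1 (eq_zero_of_nrm h3)
  have hLχ' : Lap χ' = y - Y := by rw [hχ', map_sub, hLχ₁, hLχ₀]
  have hχ₀0 : ∀ G ∈ MN 0, ip χ₀ G = 0 := by
    intro G hG
    rw [← hχ₀p G (hM.mono _ _ (Nat.zero_le _) hG), hχ₁0 G hG]
  have hyY : nrm y ^ 2 = nrm Y ^ 2 + nrm (y - Y : SF) ^ 2 := by
    rw [nrm_sq', nrm_sq', nrm_sq', ip_sub_left, ip_sub_right, ip_sub_right, hYy Y hY,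
      ip_comm Y y, hYy Y hY]
    ring
  have hy0 := nrm_nonneg y
  have hY0 := nrm_nonneg Y
  have hyY0 := nrm_nonneg (y - Y : SF)
  have hle1 : nrm (y - Y : SF) ≤ nrm y := by
    apply le_of_sq_le_sq _ hy0
    nlinarith
  -- spectral gaps
  have s1 := hSp n₀ (max n n₀) χ' hχ'mem hχ'perp
  have s2 := hSp 0 n₀ χ₀ hχ₀ hχ₀0
  have u1 : -(ip (Lap χ') χ') ≤ nrm (y - Y : SF) * nrm χ' := by
    rw [hLχ']
    exact (neg_le_abs _).trans (abs_ip_le' _ _)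
  have u2 : -(ip (Lap χ₀) χ₀) ≤ nrm Y * nrm χ₀ := by
    rw [hLχ₀]
    exact (neg_le_abs _).trans (abs_ip_le' _ _)
  have hLpos : (0 : ℝ) < ((n₀ : ℝ) + 1) * (n₀ + 2) := by positivity
  obtain ⟨b1, b2⟩ := spec_bounds hLpos (nrm_nonneg χ') hyY0 s1 u1
  have s2' : (2 : ℝ) * nrm χ₀ ^ 2 ≤ -(ip (Lap χ₀) χ₀) := by
    have : ((0 : ℕ) : ℝ) = 0 := by simp
    rw [this] at s2
    norm_num at s2
    exact s2
  obtain ⟨b3, b4⟩ := spec_bounds (by norm_num : (0 : ℝ) < 2) (nrm_nonneg χ₀) hY0 s2' u2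
  have hLinv : 1 / (((n₀ : ℝ) + 1) * (n₀ + 2)) ≤ δ ^ 2 := by
    rw [hδ, div_pow, one_pow]
    apply one_div_le_one_div_of_le (by positivity)
    nlinarith
  have hδ2 : δ ^ 2 ≤ δ := by nlinarith
  -- norm of χ₁
  have hmu : nrm χ₁ ≤ δ * nrm y + nrm Y := by
    have e : χ₁ = χ' + χ₀ := by rw [hχ']; abel
    have h1 := nrm_add_le χ' χ₀
    rw [← e] at h1
    have h2 : nrm (y - Y : SF) / (((n₀ : ℝ) + 1) * (n₀ + 2)) ≤ δ * nrm y := by
      rw [div_eq_mul_one_div]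
      calc nrm (y - Y : SF) * (1 / (((n₀ : ℝ) + 1) * (n₀ + 2))) ≤ nrm y * δ :=
            mul_le_mul hle1 (hLinv.trans hδ2) (by positivity) hy0
        _ = δ * nrm y := mul_comm _ _
    linarith
  have hnu : nrm1 χ₁ ≤ δ * nrm y + nrm Y := by
    rw [nrm1, Real.sqrt_le_iff]
    refine ⟨by positivity, ?_⟩
    have e : χ₁ = χ' + χ₀ := by rw [hχ']; abel
    have c1 : ip (Lap χ₀) χ' = 0 := by
      rw [ip_comm]; exact hχ'perp _ (lap_mem_MN hM hχ₀)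
    have c2 : ip (Lap χ') χ₀ = 0 := by
      rw [hC.symm]; exact hχ'perp _ (lap_mem_MN hM hχ₀)
    have h1 : ip (Lap χ₁) χ₁ = ip (Lap χ') χ' + ip (Lap χ₀) χ₀ := by
      rw [e, map_add, ip_add_left, ip_add_right, ip_add_right, c1, c2]
      ring
    rw [h1]
    have h2 : nrm (y - Y : SF) ^ 2 / (((n₀ : ℝ) + 1) * (n₀ + 2)) ≤ δ ^ 2 * nrm y ^ 2 := by
      rw [div_eq_mul_one_div]
      calc nrm (y - Y : SF) ^ 2 * (1 / (((n₀ : ℝ) + 1) * (n₀ + 2))) ≤ nrm y ^ 2 * δ ^ 2 :=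
            mul_le_mul (by gcongr) hLinv (by positivity) (by positivity)
        _ = δ ^ 2 * nrm y ^ 2 := mul_comm _ _
    nlinarith [mul_nonneg (mul_nonneg hδ0.le hy0) hY0]
  -- the Garding inequality
  have hg := hgard w hwK hw hwB n χ₁ hχ₁U
  have hBil : ∫ x in shell, w x * (Lap χ₁) x * (Lap (psi χ₁)) x = Bil w y y := by
    rw [← hP.lap n χ₁ hχ₁U, hLχ₁]
    rfl
  rw [hBil, hLχ₁] at hg
  have hnu0 : 0 ≤ nrm1 χ₁ := Real.sqrt_nonneg _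
  have hmu0 : 0 ≤ nrm χ₁ := nrm_nonneg _
  have hprod : (nrm y + nrm1 χ₁) * (nrm1 χ₁ + nrm χ₁) ≤
      5 * δ * nrm y ^ 2 + (9 / δ + 2) * nrm Y ^ 2 := by
    have e1 : nrm y + nrm1 χ₁ ≤ 2 * nrm y + nrm Y := by nlinarith
    have e2 : nrm1 χ₁ + nrm χ₁ ≤ 2 * (δ * nrm y) + 2 * nrm Y := by linarith
    have e3 : (nrm y + nrm1 χ₁) * (nrm1 χ₁ + nrm χ₁) ≤
        (2 * nrm y + nrm Y) * (2 * (δ * nrm y) + 2 * nrm Y) :=
      mul_le_mul e1 e2 (by positivity) (by positivity)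
    have e4 : 6 * (nrm y * nrm Y) ≤ δ * nrm y ^ 2 + 9 / δ * nrm Y ^ 2 := by
      have h5 : 0 ≤ (δ * nrm y - 3 * nrm Y) ^ 2 / δ := by positivity
      have h6 : (δ * nrm y - 3 * nrm Y) ^ 2 / δ
          = δ * nrm y ^ 2 - 6 * (nrm y * nrm Y) + 9 / δ * nrm Y ^ 2 := by
        field_simp
        ring
      linarith
    have e5 : δ * (nrm y * nrm Y) ≤ nrm y * nrm Y :=
      mul_le_of_le_one_left (by positivity) hδ1
    nlinarith
  have hC1 : C * (nrm y + nrm1 χ₁) * (nrm1 χ₁ + nrm χ₁) ≤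
      |C| * (5 * δ * nrm y ^ 2 + (9 / δ + 2) * nrm Y ^ 2) := by
    rw [mul_assoc]
    calc C * ((nrm y + nrm1 χ₁) * (nrm1 χ₁ + nrm χ₁))
        ≤ |C| * ((nrm y + nrm1 χ₁) * (nrm1 χ₁ + nrm χ₁)) :=
          mul_le_mul_of_nonneg_right (le_abs_self C) (by positivity)
      _ ≤ _ := mul_le_mul_of_nonneg_left hprod (abs_nonneg C)
  have hfin : 5 * (|C| * δ) * nrm y ^ 2 ≤ c / 2 * nrm y ^ 2 :=
    mul_le_mul_of_nonneg_right (by linarith) (by positivity)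
  nlinarith

end Pool.Agent.MP85963d.H51
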