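import Pool.Agent.Lib.MP_85963d_gt.H51.Linc1
import Pool.Agent.Lib.MP_85963d_gt.H2.LinA
import Pool.Agent.Lib.MP_85963d_gt.H72.Det

/-!
# LINC, part 2: orthonormal bases, small multipliers, approximate kernels
-/

set_option autoImplicit false

open MeasureTheory Filter Topology Set Metric Quaternion
open scoped Real ContDiff

namespace Pool.Agent.MP85963d.H51

open SF

/-- the pairing as a bilinear map -/
noncomputable def ipB : SF →ₗ[ℝ] SF →ₗ[ℝ] ℝ :=
  LinearMap.mk₂ ℝ (fun F G => ip F G) ip_add_left (fun c F G => ip_smul_left c F G)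
    (fun F G K => ip_add_right G K F) (fun c F G => ip_smul_right c G F)

theorem ipB_apply (F G : SF) : ipB F G = ip F G := rfl

theorem ip_sum_left {ι : Type} (s : Finset ι) (f : ι → SF) (G : SF) :
    ip (∑ i ∈ s, f i : SF) G = ∑ i ∈ s, ip (f i) G := by
  rw [← ipB_apply, map_sum, LinearMap.sum_apply]
  rfl

theorem ip_sum_right {ι : Type} (s : Finset ι) (f : ι → SF) (G : SF) :
    ip G (∑ i ∈ s, f i : SF) = ∑ i ∈ s, ip G (f i) := by
  rw [ip_comm, ip_sum_left]
  simp only [ip_comm]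

/-- orthonormal families -/
def ON {d : ℕ} (e : Fin d → SF) : Prop := ∀ i j, ip (e i) (e j) = if i = j then (1 : ℝ) else 0

theorem ON.ip_sum {d : ℕ} {e : Fin d → SF} (h : ON e) (a : Fin d → ℝ) (i : Fin d) :
    ip (∑ j, a j • e j : SF) (e i) = a i := by
  rw [ip_sum_left]
  simp only [ip_smul_left, h _ _]
  simp

theorem ON.nrm_sum {d : ℕ} {e : Fin d → SF} (h : ON e) (a : Fin d → ℝ) :
    nrm (∑ j, a j • e j : SF) ^ 2 = ∑ j, a j ^ 2 := by
  rw [nrm_sq', ip_sum_right]
  refine Finset.sum_congr rfl fun i _ => ?_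
  rw [ip_smul_right, h.ip_sum]
  ring

theorem ON.bessel {d : ℕ} {e : Fin d → SF} (h : ON e) (F : SF) :
    ∑ i, ip F (e i) ^ 2 ≤ nrm F ^ 2 := by
  have h1 := ip_self_nonneg (F - ∑ i, ip F (e i) • e i : SF)
  have h2 : ip F (∑ i, ip F (e i) • e i : SF) = ∑ i, ip F (e i) ^ 2 := by
    rw [ip_sum_right]
    refine Finset.sum_congr rfl fun i _ => ?_
    rw [ip_smul_right]
    ring
  have h3 : ip (∑ i, ip F (e i) • e i : SF) (∑ i, ip F (e i) • e i : SF)
      = ∑ i, ip F (e i) ^ 2 := by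
    rw [← nrm_sq', h.nrm_sum]
  have h4 : ip (∑ i, ip F (e i) • e i : SF) F = ∑ i, ip F (e i) ^ 2 := by rw [ip_comm, h2]
  rw [ip_sub_left, ip_sub_right, ip_sub_right, h2, h3, h4, ← nrm_sq'] at h1
  linarith

/-- a vector of the span is the sum of its projections -/
theorem ON.repr {W : Submodule ℝ SF} {d : ℕ} (b : Module.Basis (Fin d) ℝ W)
    (h : ON fun i => (b i : SF)) {F : SF} (hF : F ∈ W) :
    F = ∑ i, ip F (b i : SF) • (b i : SF) := by
  have h1 := b.sum_repr ⟨F, hF⟩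
  have h2 : F = ∑ i, b.repr ⟨F, hF⟩ i • (b i : SF) := by
    have h3 := congrArg (fun x : W => (x : SF)) h1
    simp only [Submodule.coe_sum, Submodule.coe_smul] at h3
    exact h3.symm
  have h4 : ∀ i, ip F (b i : SF) = b.repr ⟨F, hF⟩ i := by
    intro i
    conv_lhs => rw [h2]
    exact h.ip_sum _ i
  simp only [h4]
  exact h2

theorem exists_onb (W : Submodule ℝ SF) [FiniteDimensional ℝ W] :
    ∃ (d : ℕ) (b : Module.Basis (Fin d) ℝ W), ON fun i => (b i : SF) := by
  let Bf : LinearMap.BilinForm ℝ W := (ipB.domRestrict₁₂ W W)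
  have hBf : ∀ F G : W, Bf F G = ip (F : SF) (G : SF) := fun F G => rfl
  have hs : LinearMap.IsSymm Bf := ⟨fun F G => by
    rw [hBf, hBf]
    exact ip_comm _ _⟩
  obtain ⟨v, hv⟩ := LinearMap.BilinForm.exists_orthogonal_basis (K := ℝ) (V := W) (B := Bf) hs
  have hpos : ∀ i, 0 < nrm (v i : SF) := by
    intro i
    apply nrm_pos
    intro h0
    exact v.ne_zero i (Subtype.ext h0)
  have hu : ∀ i, IsUnit ((nrm (v i : SF))⁻¹) := fun i =>
    (IsUnit.mk0 _ (inv_ne_zero (hpos i).ne'))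
  refine ⟨_, v.isUnitSMul hu, fun i j => ?_⟩
  simp only [Module.Basis.isUnitSMul_apply, Submodule.coe_smul]
  rw [ip_smul_left, ip_smul_right]
  by_cases hij : i = j
  · subst hij
    rw [if_pos rfl, ← nrm_sq']
    have := (hpos i).ne'
    field_simp
  · rw [if_neg hij]
    have h1 : Bf (v i) (v j) = 0 := hv hij
    rw [hBf] at h1
    rw [h1]
    ring

/-- the projection on a finite-dimensional space -/
theorem ON.proj {W : Submodule ℝ SF} {d : ℕ} (b : Module.Basis (Fin d) ℝ W)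
    (h : ON fun i => (b i : SF)) (F : SF) :
    (∑ i, ip F (b i : SF) • (b i : SF) ∈ W) ∧
    (∀ G ∈ W, ip F G = ip (∑ i, ip F (b i : SF) • (b i : SF) : SF) G) ∧
    nrm (∑ i, ip F (b i : SF) • (b i : SF) : SF) ^ 2 = ∑ i, ip F (b i : SF) ^ 2 := by
  refine ⟨W.sum_mem fun i _ => W.smul_mem _ (b i).2, fun G hG => ?_, h.nrm_sum _⟩
  rw [ON.repr b h hG, ip_sum_right, ip_sum_right]
  refine Finset.sum_congr rfl fun i _ => ?_
  rw [ip_smul_right, ip_smul_right, h.ip_sum]

/-! ### weights -/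

theorem Bil_add_weight {f g : ℍ → ℝ} (hf : ContinuousOn f {0}ᶜ) (hg : ContinuousOn g {0}ᶜ)
    (y η : SF) : Bil (fun x => f x + g x) y η = Bil f y η + Bil g y η := by
  simp only [Bil, add_mul]
  exact integral_add (integrableOn_shell ((hf.mul y.continuousOn).mul (psi η).continuousOn))
    (integrableOn_shell ((hg.mul y.continuousOn).mul (psi η).continuousOn))

theorem small_bil (hP : PestStatement) {ε : ℝ} {f : ℍ → ℝ} (hε : 0 ≤ ε) (hf : SmallMult ε f)
    {n : ℕ} {y η : SF} (hy : IsU y) (hη : η ∈ UN n) :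
    |Bil f y η| ≤ 2 * ε * (nrm y * nrm η) := by
  obtain ⟨g, hg, hgb, hgd⟩ := hf.deriv
  have hyK := H2.isKlein_of_isU hy
  have h := hP n η hη (fun x => f x * y x) (fun x => g x * y x)
    ⟨hf.cts.cont.mul y.continuousOn, fun r x hr hx => by rw [hf.cts.hom r x hr hx, y.hom hr]⟩
    ⟨hg.cont.mul y.continuousOn, fun r x hr hx => by rw [hg.hom r x hr hx, y.hom hr]⟩
    ⟨fun x => by rw [hf.klein.mulI, hyK.mulI], fun x => by rw [hf.klein.mulK, hyK.mulK]⟩
    (fun x hx t => by
      have e : (fun t => f (x * rot qI t) * y (x * rot qI t))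
          = fun t => f (x * rot qI t) * y x := by
        funext t; rw [hy.rotI]
      rw [e, hy.rotI]
      exact (hgd x hx t).mul_const _)
  have n1 : nrm (fun x => f x * y x) ≤ ε * nrm y :=
    H2.nrm_le_of_abs_le (hf.cts.cont.mul y.continuousOn) y.continuousOn hε fun x hx => by
      rw [Pi.mul_apply, abs_mul]
      exact mul_le_mul_of_nonneg_right (hf.bound x hx) (abs_nonneg _)
  have n2 : nrm (fun x => g x * y x) ≤ ε * nrm y :=
    H2.nrm_le_of_abs_le (hg.cont.mul y.continuousOn) y.continuousOn hε fun x hx => by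
      rw [Pi.mul_apply, abs_mul]
      exact mul_le_mul_of_nonneg_right (hgb x hx) (abs_nonneg _)
  have h2 : ip (fun x => f x * y x) (psi η) = Bil f y η := rfl
  rw [h2] at h
  refine h.trans ?_
  calc (nrm (fun x => f x * y x) + nrm (fun x => g x * y x)) * nrm η
      ≤ (ε * nrm y + ε * nrm y) * nrm η :=
        mul_le_mul_of_nonneg_right (add_le_add n1 n2) (nrm_nonneg _)
    _ = 2 * ε * (nrm y * nrm η) := by ring

/-- approximate kernel elements in the polynomial spaces -/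
theorem kernel_approx (hPe : PestStatement) (hPsi : PsiFacts) (hD : DensFacts) {k : ℕ}
    (hk : 1 ≤ k) {w : SF} (hw : IsKlein w) {B : ℝ} (hB : Bd 1 B w) {y : ℍ → ℝ} (hy : Cts y)
    (hyU : IsU y) (hyM : Mode k y) (hK : KerK w y) {x₀ : ℍ} (hx₀ : x₀ ≠ 0) (hne : y x₀ ≠ 0) :
    ∃ ν : ℝ, 0 < ν ∧ ∀ ε : ℝ, 0 < ε → ∃ n₁ : ℕ, ∃ F ∈ SNk k n₁, ν ≤ nrm F ∧
      ∀ n, ∀ η ∈ UN n, |Bil w F η| ≤ ε * nrm η := by
  have hB0 : 0 ≤ B := (abs_nonneg _).trans (hB [] (by simp) 0)
  have hn0 : 0 < nrm y := by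
    rcases (nrm_nonneg y).eq_or_lt with h0 | h0
    · exact absurd (H2.eq_zero_of_nrm_cts hy h0.symm x₀ hx₀) hne
    · exact h0
  set S : ℝ := nrm (fun _ : ℍ => (1:ℝ)) with hS
  have hS0 : 0 ≤ S := nrm_nonneg _
  refine ⟨nrm y / 2, by positivity, fun ε hε => ?_⟩
  set ε' : ℝ := min (nrm y / (2 * (S + 1))) (ε / (2 * (B + 1) * (S + 1))) with hε'
  have hε'0 : 0 < ε' := by positivity
  obtain ⟨n, F, hFm, hFy⟩ := hD.mode k hk y hy hyU hyM ε' hε'0
  have hz : Cts (fun x => F x - y x) :=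
    ⟨F.continuousOn.sub hy.cont, fun r x hr hx => by rw [F.hom hr, hy.hom r x hr hx]⟩
  have hFU : IsU F := hFm.1.2
  have hzU : IsU (fun x => F x - y x) :=
    ⟨fun x t => by rw [hFU.rotI, hyU.rotI], fun x => by rw [hFU.mulK, hyU.mulK]⟩
  have hzn : nrm (fun x => F x - y x) ≤ ε' * S :=
    H2.nrm_le_of_sup hz.cont hε'0.le fun x hx => by rw [abs_sub_comm]; exact hFy x hx
  have hyn : nrm (fun x => y x - F x) ≤ ε' * S :=
    H2.nrm_le_of_sup (hy.cont.sub F.continuousOn) hε'0.le hFy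
  refine ⟨n, F, hFm, ?_, fun m η hη => ?_⟩
  · have h1 := H2.nrm_sq_le_two hy.cont F.continuousOn
    have h2 : ε' * S ≤ nrm y / 2 := by
      have h3 : ε' ≤ nrm y / (2 * (S + 1)) := min_le_left _ _
      calc ε' * S ≤ nrm y / (2 * (S + 1)) * (S + 1) :=
            mul_le_mul h3 (by linarith) hS0 (by positivity)
        _ = nrm y / 2 := by field_simp
    have h3 : nrm (fun x => y x - F x) ^ 2 ≤ (nrm y / 2) ^ 2 :=
      pow_le_pow_left₀ (nrm_nonneg _) (hyn.trans h2) 2
    apply le_of_sq_le_sq _ (nrm_nonneg _)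
    nlinarith
  · have h1 := H2.pest_mul hPe hw hB hz hzU hη
    have h2 : ∫ x in shell, w x * (F x - y x) * (psi η) x = Bil w F η := by
      have h3 : ∫ x in shell, w x * y x * (psi η) x = 0 :=
        H2.ip_psi_zero hPsi w.continuousOn hy.cont hK hη
      have i1 : IntegrableOn (fun x => w x * F x * (psi η) x) shell :=
        integrableOn_shell ((w.continuousOn.mul F.continuousOn).mul (psi η).continuousOn)
      have i2 : IntegrableOn (fun x => w x * y x * (psi η) x) shell :=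
        integrableOn_shell ((w.continuousOn.mul hy.cont).mul (psi η).continuousOn)
      have e : (fun x => w x * (F x - y x) * (psi η) x)
          = fun x => w x * F x * (psi η) x - w x * y x * (psi η) x := by
        funext x; ring
      rw [e, integral_sub i1 i2, h3, sub_zero, Bil]
    rw [h2] at h1
    refine h1.trans (mul_le_mul_of_nonneg_right ?_ (nrm_nonneg _))
    have h3 : ε' ≤ ε / (2 * (B + 1) * (S + 1)) := min_le_right _ _
    calc 2 * B * nrm (fun x => F x - y x) ≤ 2 * B * (ε' * S) := by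
          apply mul_le_mul_of_nonneg_left hzn (by positivity)
      _ ≤ 2 * (B + 1) * (ε / (2 * (B + 1) * (S + 1)) * (S + 1)) := by
          apply mul_le_mul (by linarith) _ (by positivity) (by positivity)
          exact mul_le_mul h3 (by linarith) hS0 (by positivity)
      _ = ε := by field_simp

/-! ### the complex quadratic form -/

open Matrix in
theorem re_quad {d : ℕ} (R J : Matrix (Fin d) (Fin d) ℝ) (z : Fin d → ℂ) :
    (∑ i, (starRingEnd ℂ) (z i) *
      ((Matrix.of fun i j => (R i j : ℂ) + Complex.I * (J i j : ℂ)).mulVec z) i).re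
    = (fun i => (z i).re) ⬝ᵥ (R *ᵥ fun i => (z i).re) + (fun i => (z i).im) ⬝ᵥ (R *ᵥ fun i => (z i).im)
      - (fun i => (z i).re) ⬝ᵥ (J *ᵥ fun i => (z i).im)
      + (fun i => (z i).im) ⬝ᵥ (J *ᵥ fun i => (z i).re) := by
  simp only [dotProduct, Matrix.mulVec, Matrix.of_apply, Complex.re_sum, Finset.mul_sum]
  rw [← Finset.sum_add_distrib, ← Finset.sum_sub_distrib, ← Finset.sum_add_distrib]
  refine Finset.sum_congr rfl fun i _ => ?_
  rw [← Finset.sum_add_distrib, ← Finset.sum_sub_distrib, ← Finset.sum_add_distrib]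
  refine Finset.sum_congr rfl fun j _ => ?_
  simp only [Complex.mul_re, Complex.mul_im, Complex.add_re, Complex.add_im, Complex.conj_re,
    Complex.conj_im, Complex.ofReal_re, Complex.ofReal_im, Complex.I_re, Complex.I_im]
  ring

open Matrix in
/-- mixed forms in a basis -/
theorem dot_mat' (hP : PsiFacts) {n : ℕ} {w : ℍ → ℝ} (hw : Cts w) {W : Submodule ℝ SF}
    (hW : W ≤ UN n) {d : ℕ} (b : Module.Basis (Fin d) ℝ W) (u v : Fin d → ℝ) :
    u ⬝ᵥ (H72.mat b w *ᵥ v) = Bil w (∑ j, v j • (b j : SF)) (∑ j, u j • (b j : SF)) := by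
  have h1 : Bil w (∑ j, v j • (b j : SF)) (∑ j, u j • (b j : SF))
      = H72.BF hP hw hW (∑ j, v j • b j) (∑ j, u j • b j) := by
    show _ = Bil w ((∑ j, v j • b j : W) : SF) ((∑ j, u j • b j : W) : SF)
    simp only [Submodule.coe_sum, Submodule.coe_smul]
  rw [h1]
  conv_rhs => rw [map_sum (H72.BF hP hw hW (∑ j, v j • b j))]
  simp only [dotProduct]
  refine Finset.sum_congr rfl fun i _ => ?_
  rw [H72.mat_mulVec hP hw hW b v i, map_smul, smul_eq_mul]
  rfl

end Pool.Agent.MP85963d.H51
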