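import Pool.Agent.Lib.MP_85963d_gt.H51.Linc
import Pool.Agent.Lib.MP_85963d_gt.H51.Anal
import Pool.Agent.Lib.MP_85963d_gt.H5.CWeight
import Pool.Agent.Lib.MP_85963d_gt.H84.Linalg

/-!
# LINC: final form
-/

set_option autoImplicit false

namespace Pool.Agent.MP85963d.H51

/-- **LINC** -/
theorem linc_of (hG : GardStatement) (hSp : SpecStatement) (hF : FamFacts) (hW : WSFacts)
    (hMo : ModeFacts) (hD : DensFacts) (hPe : PestStatement) (hPsi : PsiFacts) (hM : MNFacts)
    (hC : CasFacts) : LinCStatement :=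
  linC_of anal_holds H84.linalg_holds H5.cweight_holds hG hSp hF hW hMo hD hPe hPsi hM hC

end Pool.Agent.MP85963d.H51
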